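import Pool.Agent.R490.Adm

set_option autoImplicit false

/-!
# Narrow progressions in arbitrary sets of prime or rough triplets
-/

namespace Pool.Agent.Results.MP_dddec0_nt.NarrowProgressions

open Finset Filter

/-- The `m` such that for `a = 2` or for `a = 4` all prime factors of `m`, `m + a`, `m + 6` exceed
`m ^ (1 / r)`. For `r ≥ 2` this set contains the set `T` of the problem. -/
def RoughTriplets (r : ℕ) : Set ℕ :=
  {m | ∃ a : ℕ, (a = 2 ∨ a = 4) ∧ ∀ h ∈ ({0, a, 6} : Finset ℕ), ∀ p : ℕ, p.Prime → p ∣ m + h →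
    (m : ℝ) ^ (1 / (r : ℝ)) < (p : ℝ)}

/-- `m` is a term of an `l`-term arithmetic progression with difference at most `D`, all terms of which
are elements of `A` in `(X, Z]`. -/
def InProgression (A : Set ℕ) (l : ℕ) (D : ℝ) (X Z m : ℕ) : Prop :=
  ∃ s d : ℕ, 1 ≤ d ∧ (d : ℝ) ≤ D ∧ (∀ i < l, s + i * d ∈ A ∧ X < s + i * d ∧ s + i * d ≤ Z) ∧
    ∃ i < l, m = s + i * d

open Classical in
/-- **Narrow progressions.** Let `θ, ε > 0` and `r, l ≥ 2`. There is an exponent `B` such that for all large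
`X`, all `X ^ θ ≤ Y ≤ X` and EVERY set `A` of rough triplets, for instance `A = T` or any subset of `T`: all
but at most `ε Y / (log X) ^ 3` of the elements of `A` in `(X, X + Y]` are terms of `l`-term arithmetic
progressions with difference at most `(log X) ^ B` all terms of which are in `A` and in `(X, X + Y]`. -/
theorem result (θ : ℝ) (hθ : 0 < θ) (r : ℕ) (hr : 2 ≤ r) (l : ℕ) (hl : 2 ≤ l) (ε : ℝ) (hε : 0 < ε) :
    ∃ B : ℕ, ∀ᶠ X : ℕ in atTop, ∀ Y : ℕ, (X : ℝ) ^ θ ≤ Y → Y ≤ X →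
      ∀ A : Set ℕ, A ⊆ RoughTriplets r →
        (((Ioc X (X + Y)).filter (fun m : ℕ =>
          m ∈ A ∧ ¬ InProgression A l (Real.log X ^ B) X (X + Y) m)).card : ℝ) ≤
        ε * (Y / Real.log X ^ 3) := by
  obtain ⟨B2, h2⟩ := Pool.Agent.R490.Tu.narH {0, 2, 6} ⟨0, by decide⟩ Pool.Agent.R490.Tu.adm_ta θ hθ r hr l hl
    (ε / 2) (by positivity)
  obtain ⟨B4, h4⟩ := Pool.Agent.R490.Tu.narH {0, 4, 6} ⟨0, by decide⟩ Pool.Agent.R490.Tu.adm_tb θ hθ r hr l hl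
    (ε / 2) (by positivity)
  refine ⟨B2 + B4, ?_⟩
  filter_upwards [h2, h4, eventually_ge_atTop 3] with X e2 e4 hX3 Y hXY hYX A hA
  have hlog : 1 ≤ Real.log X := by
    rw [Real.le_log_iff_exp_le (by positivity)]
    have := Real.exp_one_lt_d9
    have h3 : (3 : ℝ) ≤ X := by exact_mod_cast hX3
    linarith
  have mono : ∀ (A' : Set ℕ) (B' : ℕ) (m : ℕ), A' ⊆ A → B' ≤ B2 + B4 →
      Pool.Agent.R490.Tu.InP A' l (Real.log X ^ B') X (X + Y + 1) m →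
      InProgression A l (Real.log X ^ (B2 + B4)) X (X + Y) m := by
    rintro A' B' m hAA hBB ⟨s, d, hd, hdD, hall, hm⟩
    refine ⟨s, d, hd, hdD.trans (pow_le_pow_right₀ hlog hBB), fun i hi => ?_, hm⟩
    obtain ⟨g1, g2, g3⟩ := hall i hi
    exact ⟨hAA g1, g2, by omega⟩
  obtain ⟨A2, hA2⟩ : ∃ A2 : Set ℕ, ∀ m, m ∈ A2 ↔ (m ∈ A ∧ Pool.Agent.R490.Tu.Rg {0, 2, 6} r m) :=
    ⟨{m | m ∈ A ∧ Pool.Agent.R490.Tu.Rg {0, 2, 6} r m}, fun m => Iff.rfl⟩
  obtain ⟨A4, hA4⟩ : ∃ A4 : Set ℕ, ∀ m, m ∈ A4 ↔ (m ∈ A ∧ Pool.Agent.R490.Tu.Rg {0, 4, 6} r m) :=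
    ⟨{m | m ∈ A ∧ Pool.Agent.R490.Tu.Rg {0, 4, 6} r m}, fun m => Iff.rfl⟩
  have key2 := e2 Y hXY hYX A2 (fun m hm => ((hA2 m).1 hm).2)
  have key4 := e4 Y hXY hYX A4 (fun m hm => ((hA4 m).1 hm).2)
  have c2 : ({0, 2, 6} : Finset ℕ).card = 3 := by decide
  have c4 : ({0, 4, 6} : Finset ℕ).card = 3 := by decide
  rw [c2] at key2
  rw [c4] at key4
  have hcard : ((Ioc X (X + Y)).filter (fun m : ℕ =>
      m ∈ A ∧ ¬ InProgression A l (Real.log X ^ (B2 + B4)) X (X + Y) m)).card ≤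
      ((Ioc X (X + Y)).filter (fun m : ℕ => m ∈ A2 ∧
        ¬ Pool.Agent.R490.Tu.InP A2 l (Real.log X ^ B2) X (X + Y + 1) m)).card +
      ((Ioc X (X + Y)).filter (fun m : ℕ => m ∈ A4 ∧
        ¬ Pool.Agent.R490.Tu.InP A4 l (Real.log X ^ B4) X (X + Y + 1) m)).card := by
    refine (Finset.card_le_card (fun m hm => ?_)).trans (Finset.card_union_le _ _)
    rw [mem_filter] at hm
    obtain ⟨hm1, hm2, hm3⟩ := hm
    rw [mem_union, mem_filter, mem_filter]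
    obtain ⟨a, ha, hro⟩ := hA hm2
    rcases ha with rfl | rfl
    · exact Or.inl ⟨hm1, (hA2 m).2 ⟨hm2, hro⟩, fun hcon =>
        hm3 (mono A2 B2 m (fun x hx => ((hA2 x).1 hx).1) (by omega) hcon)⟩
    · exact Or.inr ⟨hm1, (hA4 m).2 ⟨hm2, hro⟩, fun hcon =>
        hm3 (mono A4 B4 m (fun x hx => ((hA4 x).1 hx).1) (by omega) hcon)⟩
  have hcard' : (((Ioc X (X + Y)).filter (fun m : ℕ =>
      m ∈ A ∧ ¬ InProgression A l (Real.log X ^ (B2 + B4)) X (X + Y) m)).card : ℝ) ≤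
      (((Ioc X (X + Y)).filter (fun m : ℕ => m ∈ A2 ∧
        ¬ Pool.Agent.R490.Tu.InP A2 l (Real.log X ^ B2) X (X + Y + 1) m)).card : ℝ) +
      (((Ioc X (X + Y)).filter (fun m : ℕ => m ∈ A4 ∧
        ¬ Pool.Agent.R490.Tu.InP A4 l (Real.log X ^ B4) X (X + Y + 1) m)).card : ℝ) := by exact_mod_cast hcard
  linarith

end Pool.Agent.Results.MP_dddec0_nt.NarrowProgressions
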