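import Pool.Agent.R490.Adm

set_option autoImplicit false

/-!
# Regular points of arbitrary sets of prime or rough triplets
-/

namespace Pool.Agent.Results.MP_dddec0_nt.RegularPoints

open Finset Filter

/-- The shifts of the two kinds of triplets, `a = 2` or `a = 4`. -/
def H (a : ℕ) : Finset ℕ := {0, a, 6}

/-- None of `m`, `m + a`, `m + 6` has a prime factor `≤ y`. -/
def Rough (a y m : ℕ) : Prop := ∀ p : ℕ, p.Prime → p ≤ y → ∀ h ∈ H a, ¬ p ∣ m + h

open Classical in
/-- The density of these `m`: the product of `1 - w(p) / p` over the primes `p ≤ y`, where `w(p)` is the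
number of the residues `m` modulo `p` with `p ∣ m + h` for some `h ∈ H a`. -/
noncomputable def V (a y : ℕ) : ℝ := ∏ p ∈ (Finset.range (y + 1)).filter Nat.Prime,
    (1 - (((Finset.range p).filter (fun m : ℕ => ∃ h ∈ H a, p ∣ m + h)).card : ℝ) / p)

open Classical in
/-- The number of elements of `S` in `(a, b]`. -/
noncomputable def count (S : Set ℕ) (a b : ℕ) : ℕ := ((Finset.Ioc a b).filter (fun m => m ∈ S)).card

/-- All intervals `(m - s, m + t]` with `s, t ≤ Y` of length at least `L / κ` contain between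
`κ (s + t) / L` and `(s + t) / (κ L)` elements of `S`. -/
def RightOrder (S : Set ℕ) (L κ : ℝ) (Y m : ℕ) : Prop :=
  ∀ s t : ℕ, s ≤ Y → t ≤ Y → L ≤ κ * (s + t) →
    κ * (s + t) / L ≤ count S (m - s) (m + t) ∧ (count S (m - s) (m + t) : ℝ) ≤ (s + t) / (κ * L)

/-- Up to `δ`, `S` has a constant density on both sides of `m` up to the distance `2 ^ j`. -/
def ConstantDensity (S : Set ℕ) (L κ δ : ℝ) (m j : ℕ) : Prop :=
  ∃ lam : ℝ, κ ≤ lam ∧ lam ≤ 1 / κ ∧ ∀ s t : ℕ, s ≤ 2 ^ j → t ≤ 2 ^ j →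
    |(count S (m - s) (m + t) : ℝ) - lam * (s + t) / L| ≤ δ * 2 ^ j / L

open Classical in
/-- The number of the scales `L ≤ 2 ^ j ≤ Y` without this property. -/
noncomputable def badScales (S : Set ℕ) (L κ δ : ℝ) (Y m : ℕ) : ℕ :=
  ((Finset.range (Nat.log 2 Y + 1)).filter (fun j => L ≤ (2 : ℝ) ^ j ∧ ¬ ConstantDensity S L κ δ m j)).card

/-- The elements of `S` that are not regular points of `S`. -/
def Irregular (S : Set ℕ) (L κ δ : ℝ) (M Y : ℕ) : Set ℕ :=
  {m | m ∈ S ∧ ¬ (RightOrder S L κ Y m ∧ badScales S L κ δ Y m ≤ M)}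

open Classical in
/-- **Regular points.** Let `θ > 0`. There is `r0` such that for `r ≥ r0` and `ε > 0` there is `κ > 0`, and for
`δ > 0` there is `M`, such that for all large `X`, both kinds of triplets, all intervals `(u, u + Y]` with
`X ^ θ ≤ Y ≤ X`, `Y ≤ u`, and EVERY set `S` of integers `m` for which `m`, `m + a`, `m + 6` have no prime factor
`≤ y = X ^ (1 / r)`, for instance every set of prime triplets of this kind above `y`: all but at most `ε Y V` of
the elements of `S` in `(u, u + Y]` are regular points of `S`: all intervals around them of length at least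
`1 / (κ V)` and at most `Y` to each side contain the right order of elements of `S`, and `S` has a constant
density up to `δ` around them at all but `M` dyadic scales. -/
theorem result (θ : ℝ) (hθ : 0 < θ) :
    ∃ r0 : ℕ, 2 ≤ r0 ∧ ∀ r : ℕ, r0 ≤ r → ∀ ε : ℝ, 0 < ε → ∃ κ : ℝ, 0 < κ ∧
      ∀ δ : ℝ, 0 < δ → ∃ M : ℕ, ∀ᶠ X : ℕ in atTop, ∀ y : ℕ, y = ⌊(X : ℝ) ^ (1 / (r : ℝ))⌋₊ →
      ∀ a : ℕ, (a = 2 ∨ a = 4) → ∀ u Y : ℕ, (X : ℝ) ^ θ ≤ Y → Y ≤ X → Y ≤ u →
      ∀ S : Set ℕ, (∀ m ∈ S, Rough a y m) →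
        (count (Irregular S (1 / V a y) κ δ M Y) u (u + Y) : ℝ) ≤ ε * (Y * V a y) := by
  obtain ⟨r0, hr0, h0⟩ := Pool.Agent.R490.Tu.regU 3 1 (by norm_num) θ hθ
  refine ⟨r0, hr0, fun r hr ε hε => ?_⟩
  obtain ⟨κ, hκ, h1⟩ := h0 r hr ε hε
  refine ⟨κ, hκ, fun δ hδ => ?_⟩
  obtain ⟨M, h2⟩ := h1 δ hδ
  refine ⟨M, ?_⟩
  filter_upwards [h2, eventually_ge_atTop 6] with X hX hX6
  intro y hy a ha u Y hY hYX hYu S hS
  rcases ha with rfl | rfl
  · exact hX (H 2) (by decide) (fun h hh => by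
      have e : ∀ h ∈ H 2, h ≤ 6 := by decide
      rw [pow_one]
      exact (e h hh).trans hX6) Pool.Agent.R490.Tu.adm_ta y hy u Y hY hYX hYu S hS
  · exact hX (H 4) (by decide) (fun h hh => by
      have e : ∀ h ∈ H 4, h ≤ 6 := by decide
      rw [pow_one]
      exact (e h hh).trans hX6) Pool.Agent.R490.Tu.adm_tb y hy u Y hY hYX hYu S hS

end Pool.Agent.Results.MP_dddec0_nt.RegularPoints
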