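import Pool.Agent.R490.Trip

set_option autoImplicit false

/-!
# The law of the almost prime triplets which follow those with one prime member
-/

namespace Pool.Agent.Results.MP_dddec0_nt.TripletLaw

open Finset Filter

/-- None of `n`, `n + a`, `n + 6` has a prime factor `≤ N ^ (1 / r)`. For `a = 2` and `a = 4` this is the
condition of the two kinds of prime triplets, weakened. -/
def Rough (a N r n : ℕ) : Prop :=
  ∀ p : ℕ, p.Prime → (p : ℝ) ≤ (N : ℝ) ^ (1 / (r : ℝ)) → ¬ p ∣ n ∧ ¬ p ∣ n + a ∧ ¬ p ∣ n + 6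

/-- The product of `1 - 3 / p` over the primes `5 < p ≤ N ^ (1 / r)`. -/
noncomputable def V (N r : ℕ) : ℝ :=
  ∏ p ∈ (Ioc 5 ⌊(N : ℝ) ^ (1 / (r : ℝ))⌋₊).filter Nat.Prime, (1 - 3 / (p : ℝ))

/-- `V` divided by the product of `1 - 1 / p` over the primes `p ≤ N ^ (1 / r)`. -/
noncomputable def W (N r : ℕ) : ℝ :=
  V N r / ∏ p ∈ (Ioc 0 ⌊(N : ℝ) ^ (1 / (r : ℝ))⌋₊).filter Nat.Prime, (1 - 1 / (p : ℝ))

open Classical in
/-- The rough triplets with `n` in `(A, A + L]` whose member `n + b` is PRIME. -/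
noncomputable def P (a N r b A L : ℕ) : Finset ℕ := (Ioc A (A + L)).filter (fun n => (n + b).Prime ∧ Rough a N r n)

open Classical in
/-- The number of the rough triplets starting in `(n, n + 30 T]` with a number congruent to `n` modulo 30. -/
noncomputable def Next (a N r T n : ℕ) : ℕ := ((Ioc n (n + 30 * T)).filter (fun l => l % 30 = n % 30 ∧ Rough a N r l)).card

open Classical in
/-- **The law after primes for both kinds of triplets.** Let `0 < θ`, `0 < δ ≤ 1`, `x0` and `0 < ε ≤ 1`.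
There is `r0` such that for every `r ≥ r0` and all large `N`: for `a = 2` and `a = 4`, each of the three members
`n + b`, and all windows `(A, A + L]` with `A + L ≤ X`, `δ X ≤ L`, `X ≥ N ^ θ`: the rough triplets in the window
whose member `n + b` is PRIME number `2 (L / 30) W / log X`, up to the factor `1 + ε`, and for exactly the
expected proportions of them, `e ^ (- T V) (T V) ^ j / j!`, there are `j` rough triplets `l ≡ n` modulo `30`
in `(n, n + 30 T]`, as for a Poisson process, `T V ≤ x0`. -/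
theorem result (a : ℕ) (ha : a = 2 ∨ a = 4)
    (θ δ : ℝ) (hθ : 0 < θ) (hδ : 0 < δ) (hδ1 : δ ≤ 1)
    (x0 ε : ℝ) (hε : 0 < ε) (hε1 : ε ≤ 1) :
    ∃ r0 : ℕ, 2 ≤ r0 ∧ ∀ r : ℕ, r0 ≤ r → ∀ᶠ N : ℕ in atTop, 0 < W N r ∧
      ∀ b ∈ ({0, a, 6} : Finset ℕ), ∀ X : ℕ, (N : ℝ) ^ θ ≤ X →
      ∀ A L : ℕ, δ * X ≤ L → A + L ≤ X →
      |((P a N r b A L).card : ℝ) * Real.log X - 2 * (L / 30 * W N r)| ≤ ε * (2 * (L / 30 * W N r)) ∧
      ∀ T : ℕ, T * V N r ≤ x0 → ∀ J : Finset ℕ,
      |(((P a N r b A L).filter (fun n => Next a N r T n ∈ J)).card : ℝ) -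
        (P a N r b A L).card * ∑ j ∈ J, Real.exp (-(T * V N r)) * (T * V N r) ^ j / j.factorial| ≤
        ε * (P a N r b A L).card :=
  Pool.Agent.R490.Tr.triplet a ha θ δ hθ hδ hδ1 x0 ε hε hε1

end Pool.Agent.Results.MP_dddec0_nt.TripletLaw
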